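import Mathlib

/-!
# Polynomials in several blocks of variables
-/

set_option autoImplicit false

namespace Pool.Agent.Helper87.UN

open MvPolynomial

variable {K : Type*} [Field K] {ι : Type*}

/-- polynomials in the blocks of variables with numbers in `ℕ` -/
abbrev RB (K : Type*) [Field K] (ι : Type*) : Type _ := MvPolynomial (ℕ × ι) K

/-- the variables of the blocks `1, …, r` -/
def SB (ι : Type*) (r : ℕ) : Set (ℕ × ι) := {v | 1 ≤ v.1 ∧ v.1 ≤ r}

/-- a polynomial as a polynomial in the block `r` -/
noncomputable def spl (r : ℕ) : RB K ι →ₐ[K] MvPolynomial ι (RB K ι) :=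
  aeval fun v => if v.1 = r then X v.2 else C (X v)

/-- evaluation of the block `r` at the variables -/
noncomputable def bck (r : ℕ) : MvPolynomial ι (RB K ι) →+* RB K ι :=
  eval₂Hom (RingHom.id _) fun i => X (r, i)

theorem bck_spl (r : ℕ) (H : RB K ι) : bck r (spl r H) = H := by
  have h : (bck r).comp (spl r : RB K ι →ₐ[K] MvPolynomial ι (RB K ι)).toRingHom =
      RingHom.id (RB K ι) := by
    apply MvPolynomial.ringHom_ext
    · intro a
      change bck r (spl r (C a)) = C a
      rw [spl, aeval_C]
      have h1 : (algebraMap K (MvPolynomial ι (RB K ι)) a) = C (C a) := rfl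
      rw [h1, bck, coe_eval₂Hom, eval₂_C]
      rfl
    · intro v
      change bck r (spl r (X v)) = X v
      rw [spl, aeval_X]
      split_ifs with h1
      · rw [bck, coe_eval₂Hom, eval₂_X, ← h1]
      · rw [bck, coe_eval₂Hom, eval₂_C]
        rfl
  exact RingHom.congr_fun h H

theorem spl_ne_zero (r : ℕ) {H : RB K ι} (hH : H ≠ 0) : spl r H ≠ 0 := by
  intro h
  apply hH
  rw [← bck_spl r H, h, map_zero]

/-- evaluation -/
noncomputable def ev (x : ℕ → ι → K) : RB K ι →+* K := eval fun v => x v.1 v.2

theorem ev_spl (x : ℕ → ι → K) (r : ℕ) (H : RB K ι) :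
    eval (x r) (map (ev x) (spl r H)) = ev x H := by
  have h : ((eval (x r)).comp (map (ev x))).comp
      (spl r : RB K ι →ₐ[K] MvPolynomial ι (RB K ι)).toRingHom = ev x := by
    apply MvPolynomial.ringHom_ext
    · intro a
      change eval (x r) (map (ev x) (spl r (C a))) = ev x (C a)
      rw [spl, aeval_C]
      have h1 : (algebraMap K (MvPolynomial ι (RB K ι)) a) = C (C a) := rfl
      rw [h1, map_C, eval_C]
    · intro v
      change eval (x r) (map (ev x) (spl r (X v))) = ev x (X v)
      rw [spl, aeval_X]
      split_ifs with h1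
      · rw [map_X, eval_X, ev, eval_X, h1]
      · rw [map_C, eval_C]
  exact RingHom.congr_fun h H

/-- the subring of the polynomials with coefficients in a subring -/
theorem coeff_mem_of {R : Type*} [CommRing R] (S : Subring R) {σ : Type*} :
    ∃ T : Subring (MvPolynomial σ R), ∀ F, F ∈ T ↔ ∀ s, coeff s F ∈ S := by
  classical
  refine ⟨(map (Subring.subtype S) : MvPolynomial σ S →+* MvPolynomial σ R).range, fun F => ?_⟩
  constructor
  · rintro ⟨G, rfl⟩ s
    rw [coeff_map]
    exact (coeff s G).2
  · intro h
    refine ⟨∑ s ∈ F.support, monomial s (⟨coeff s F, h s⟩ : S), ?_⟩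
    rw [map_sum]
    simp only [map_monomial]
    exact (F.as_sum).symm

/-- the coefficients for the block `r + 1` are polynomials in the blocks `1, …, r` -/
theorem coeff_spl_mem (r : ℕ) {H : RB K ι} (hH : H ∈ supported K (SB ι (r + 1)))
    (s : ι →₀ ℕ) : coeff s (spl (r + 1) H) ∈ supported K (SB ι r) := by
  classical
  obtain ⟨T, hT⟩ := coeff_mem_of (σ := ι) (supported K (SB ι r)).toSubring
  have h1 : ∀ F : MvPolynomial ι (RB K ι), F ∈ T ↔ ∀ s, coeff s F ∈ supported K (SB ι r) := hT
  refine (h1 _).1 ?_ s
  rw [supported_eq_adjoin_X] at hH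
  induction hH using Algebra.adjoin_induction with
  | mem x hx =>
    obtain ⟨v, hv, rfl⟩ := hx
    rw [spl, aeval_X]
    split_ifs with h2
    · rw [h1]
      intro s
      rw [coeff_X]
      split_ifs
      · exact one_mem _
      · exact zero_mem _
    · rw [h1]
      intro s
      rw [coeff_C]
      split_ifs
      · rw [X_mem_supported]
        have h3 : v.1 ≤ r + 1 := hv.2
        exact ⟨hv.1, by omega⟩
      · exact zero_mem _
  | algebraMap a =>
    have h2 : spl (r + 1) (algebraMap K (RB K ι) a) = C (C a) := by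
      rw [AlgHom.commutes]
      rfl
    rw [h2, h1]
    intro s
    rw [coeff_C]
    split_ifs
    · exact (supported K (SB ι r)).algebraMap_mem a
    · exact zero_mem _
  | add x y _ _ hx hy =>
    rw [map_add]
    exact T.add_mem hx hy
  | mul x y _ _ hx hy =>
    rw [map_mul]
    exact T.mul_mem hx hy

end Pool.Agent.Helper87.UN
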