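import Pool.Agent.Helper86.MQ.Defs
import Pool.Agent.Helper87.UN.Blocks

/-!
# Orbits near a superattracting point at infinity
-/

set_option autoImplicit false

namespace Pool.Agent.Helper87.UN

open MvPolynomial
open Pool.Agent.Helper86.MQ (pm)

variable {K : Type*} [Field K] {m : ℕ}

/-- The orbit `x` stays near the point at infinity of the last axis, with uniform bounds. -/
structure Orb (v : AbsoluteValue K ℝ) (β : ℝ) (Φ : Fin (m + 1) → MvPolynomial (Fin (m + 1)) K)
    (x : ℕ → Fin (m + 1) → K) : Prop where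
  step : ∀ n, x (n + 1) = pm Φ (x n)
  big : ∀ n, β ≤ v (x n (Fin.last m))
  le : ∀ n i, v (x n i) ≤ v (x n (Fin.last m))
  grow : ∀ n, v (x n (Fin.last m)) ^ 2 ≤ v (x (n + 1) (Fin.last m))
  ratio : ∀ n i, i ≠ Fin.last m →
    v (x (n + 1) i) * v (x n (Fin.last m)) ≤ v (x (n + 1) (Fin.last m))

variable {v : AbsoluteValue K ℝ} {β : ℝ} {Φ : Fin (m + 1) → MvPolynomial (Fin (m + 1)) K}
  {x : ℕ → Fin (m + 1) → K}

theorem Orb.one_le (hβ : 1 < β) (hx : Orb v β Φ x) (n : ℕ) : 1 ≤ v (x n (Fin.last m)) :=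
  hβ.le.trans (hx.big n)

theorem Orb.mono (hβ : 1 < β) (hx : Orb v β Φ x) : Monotone fun n => v (x n (Fin.last m)) := by
  refine monotone_nat_of_le_succ fun n => ?_
  have h1 := hx.one_le hβ n
  have h2 := hx.grow n
  nlinarith

/-- doubly exponential growth -/
theorem Orb.pow_le (hβ : 1 < β) (hx : Orb v β Φ x) (n j : ℕ) :
    v (x n (Fin.last m)) ^ j ≤ v (x (n + j) (Fin.last m)) := by
  have h1 := hx.one_le hβ n
  have h : v (x n (Fin.last m)) ^ (2 ^ j) ≤ v (x (n + j) (Fin.last m)) := by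
    induction j with
    | zero => simp
    | succ j ih =>
      have h2 := hx.grow (n + j)
      calc v (x n (Fin.last m)) ^ (2 ^ (j + 1)) = (v (x n (Fin.last m)) ^ (2 ^ j)) ^ 2 := by
            rw [← pow_mul, pow_succ]
        _ ≤ v (x (n + j) (Fin.last m)) ^ 2 := pow_le_pow_left₀ (by positivity) ih 2
        _ ≤ _ := h2
  exact (pow_le_pow_right₀ h1 Nat.lt_two_pow_self.le).trans h

theorem prod_le {ρ : ℝ} (y : Fin (m + 1) → K) (hy : ∀ i, v (y i) ≤ ρ)
    (s : Fin (m + 1) →₀ ℕ) : v (∏ i, y i ^ s i) ≤ ρ ^ s.degree := by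
  rw [map_prod, Finsupp.degree_eq_sum, ← Finset.prod_pow_eq_pow_sum]
  refine Finset.prod_le_prod (fun i _ => v.nonneg _) fun i _ => ?_
  rw [map_pow]
  exact pow_le_pow_left₀ (v.nonneg _) (hy i) _

/-- the other monomials are smaller -/
theorem Orb.small (hβ : 1 < β) (hx : Orb v β Φ x) (n : ℕ) {E : ℕ} {s : Fin (m + 1) →₀ ℕ}
    (hs : s.degree ≤ E) (hne : s ≠ Finsupp.single (Fin.last m) E) :
    v (∏ i, x (n + 1) i ^ s i) * v (x n (Fin.last m)) ≤ v (x (n + 1) (Fin.last m)) ^ E := by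
  classical
  set ρ := v (x (n + 1) (Fin.last m)) with hρ
  have hρ1 : 1 ≤ ρ := hx.one_le hβ (n + 1)
  by_cases h : ∃ i, i ≠ Fin.last m ∧ s i ≠ 0
  · obtain ⟨i, hi, hsi⟩ := h
    set s' : Fin (m + 1) →₀ ℕ := s - Finsupp.single i 1 with hs'
    have hle : Finsupp.single i 1 ≤ s := by
      rw [Finsupp.single_le_iff]
      omega
    have hsum : s = Finsupp.single i 1 + s' := (add_tsub_cancel_of_le hle).symm
    have hdeg : s.degree = 1 + s'.degree := by
      rw [hsum, map_add, Finsupp.degree_single]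
    have hprod : ∏ j, x (n + 1) j ^ s j = x (n + 1) i * ∏ j, x (n + 1) j ^ s' j := by
      have h1 : ∀ j, x (n + 1) j ^ s j = x (n + 1) j ^ (Finsupp.single i 1 : Fin (m + 1) →₀ ℕ) j *
          x (n + 1) j ^ s' j := by
        intro j
        rw [← pow_add, ← Finsupp.add_apply, ← hsum]
      rw [Finset.prod_congr rfl fun j _ => h1 j, Finset.prod_mul_distrib]
      congr 1
      rw [Finset.prod_eq_single i]
      · simp
      · intro b _ hb
        rw [Finsupp.single_eq_of_ne hb, pow_zero]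
      · simp
    rw [hprod, map_mul]
    have h1 := hx.ratio n i hi
    have h2 := prod_le (v := v) (x (n + 1)) (hx.le (n + 1)) s'
    calc v (x (n + 1) i) * v (∏ j, x (n + 1) j ^ s' j) * v (x n (Fin.last m))
        = (v (x (n + 1) i) * v (x n (Fin.last m))) * v (∏ j, x (n + 1) j ^ s' j) := by ring
      _ ≤ ρ * ρ ^ s'.degree :=
          mul_le_mul h1 h2 (v.nonneg _) (by linarith)
      _ = ρ ^ s.degree := by rw [hdeg, pow_add, pow_one]
      _ ≤ ρ ^ E := pow_le_pow_right₀ hρ1 hs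
  · push Not at h
    have hs1 : s = Finsupp.single (Fin.last m) (s (Fin.last m)) := by
      ext j
      by_cases hj : j = Fin.last m
      · rw [hj, Finsupp.single_eq_same]
      · rw [Finsupp.single_eq_of_ne hj, h j hj]
    have hdeg : s.degree = s (Fin.last m) := by
      conv_lhs => rw [hs1]
      rw [Finsupp.degree_single]
    have hlt : s (Fin.last m) + 1 ≤ E := by
      rw [hdeg] at hs
      rcases Nat.lt_or_eq_of_le hs with h2 | h2
      · exact h2
      · exact absurd (by rw [hs1, h2]) hne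
    have h1 := prod_le (v := v) (x (n + 1)) (hx.le (n + 1)) s
    have h2 : v (x n (Fin.last m)) ≤ ρ := hx.mono hβ (Nat.le_succ n)
    calc v (∏ i, x (n + 1) i ^ s i) * v (x n (Fin.last m)) ≤ ρ ^ s.degree * ρ :=
          mul_le_mul h1 h2 (v.nonneg _) (by positivity)
      _ = ρ ^ (s (Fin.last m) + 1) := by rw [hdeg, pow_succ]
      _ ≤ ρ ^ E := pow_le_pow_right₀ hρ1 hlt

/-- **Domination.** -/
theorem Orb.dom (hβ : 1 < β) (hx : Orb v β Φ x) (n : ℕ) {E : ℕ}
    {G : MvPolynomial (Fin (m + 1)) K} (hG : G.totalDegree ≤ E)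
    (hS : 2 * ∑ s ∈ G.support, v (coeff s G) ≤
      v (coeff (Finsupp.single (Fin.last m) E) G) * v (x n (Fin.last m))) :
    v (coeff (Finsupp.single (Fin.last m) E) G) * v (x (n + 1) (Fin.last m)) ^ E ≤
      2 * v (eval (x (n + 1)) G) := by
  classical
  set ρ := v (x (n + 1) (Fin.last m)) with hρ
  set s₀ : Fin (m + 1) →₀ ℕ := Finsupp.single (Fin.last m) E with hs₀
  set X := v (x n (Fin.last m)) with hX
  have hρ1 : 1 ≤ ρ := hx.one_le hβ (n + 1)
  have hX1 : 1 ≤ X := hx.one_le hβ n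
  by_cases h0 : coeff s₀ G = 0
  · rw [h0, map_zero, zero_mul]
    exact mul_nonneg zero_le_two (v.nonneg _)
  have hmem : s₀ ∈ G.support := mem_support_iff.2 h0
  have h1 : eval (x (n + 1)) G = coeff s₀ G * x (n + 1) (Fin.last m) ^ E +
      ∑ s ∈ G.support.erase s₀, coeff s G * ∏ i, x (n + 1) i ^ s i := by
    rw [eval_eq', ← Finset.add_sum_erase _ _ hmem]
    congr 2
    rw [Finset.prod_eq_single (Fin.last m)]
    · rw [hs₀, Finsupp.single_eq_same]
    · intro b _ hb
      rw [hs₀, Finsupp.single_eq_of_ne hb, pow_zero]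
    · simp
  have h2 : v (∑ s ∈ G.support.erase s₀, coeff s G * ∏ i, x (n + 1) i ^ s i) * X ≤
      (∑ s ∈ G.support, v (coeff s G)) * ρ ^ E := by
    calc _ ≤ (∑ s ∈ G.support.erase s₀, v (coeff s G * ∏ i, x (n + 1) i ^ s i)) * X :=
          mul_le_mul_of_nonneg_right (v.sum_le _ _) (by linarith)
      _ = ∑ s ∈ G.support.erase s₀, v (coeff s G) * (v (∏ i, x (n + 1) i ^ s i) * X) := by
          rw [Finset.sum_mul]
          refine Finset.sum_congr rfl fun s _ => ?_
          rw [map_mul, mul_assoc]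
      _ ≤ ∑ s ∈ G.support.erase s₀, v (coeff s G) * ρ ^ E := by
          refine Finset.sum_le_sum fun s hs => ?_
          rw [Finset.mem_erase] at hs
          exact mul_le_mul_of_nonneg_left
            (hx.small hβ n ((le_totalDegree hs.2).trans hG) hs.1) (v.nonneg _)
      _ ≤ ∑ s ∈ G.support, v (coeff s G) * ρ ^ E :=
          Finset.sum_le_sum_of_subset_of_nonneg (Finset.erase_subset _ _) fun s _ _ =>
            mul_nonneg (v.nonneg _) (by positivity)
      _ = _ := by rw [Finset.sum_mul]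
  have h3 : v (coeff s₀ G) * ρ ^ E ≤ v (eval (x (n + 1)) G) +
      v (∑ s ∈ G.support.erase s₀, coeff s G * ∏ i, x (n + 1) i ^ s i) := by
    have h4 : coeff s₀ G * x (n + 1) (Fin.last m) ^ E = eval (x (n + 1)) G +
        -(∑ s ∈ G.support.erase s₀, coeff s G * ∏ i, x (n + 1) i ^ s i) := by
      rw [h1]
      ring
    have h5 := v.add_le (eval (x (n + 1)) G)
      (-(∑ s ∈ G.support.erase s₀, coeff s G * ∏ i, x (n + 1) i ^ s i))
    rw [← h4, map_mul, map_pow, AbsoluteValue.map_neg] at h5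
    exact h5
  have hρE : 0 < ρ ^ E := by positivity
  have h6 : 2 * ((∑ s ∈ G.support, v (coeff s G)) * ρ ^ E) ≤
      (v (coeff s₀ G) * ρ ^ E) * X := by
    calc _ = (2 * ∑ s ∈ G.support, v (coeff s G)) * ρ ^ E := by ring
      _ ≤ (v (coeff s₀ G) * X) * ρ ^ E := mul_le_mul_of_nonneg_right hS hρE.le
      _ = _ := by ring
  have h7 : 2 * v (∑ s ∈ G.support.erase s₀, coeff s G * ∏ i, x (n + 1) i ^ s i) ≤
      v (coeff s₀ G) * ρ ^ E := by
    have h8 : (2 * v (∑ s ∈ G.support.erase s₀, coeff s G * ∏ i, x (n + 1) i ^ s i)) * X ≤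
        (v (coeff s₀ G) * ρ ^ E) * X := by linarith
    exact le_of_mul_le_mul_right h8 (by linarith)
  linarith

theorem le_last {n : ℕ → ℕ} : ∀ r : ℕ, (∀ j, j < r → n j ≤ n (j + 1)) → ∀ j ≤ r, n j ≤ n r := by
  intro r
  induction r with
  | zero =>
    intro _ j hj
    rw [Nat.le_zero.1 hj]
  | succ r ih =>
    intro h j hj
    rcases Nat.lt_or_eq_of_le hj with h1 | h1
    · exact (ih (fun k hk => h k (by omega)) j (by omega)).trans (h r (by omega))
    · rw [h1]

/-- **Upper bounds** for polynomials in several points of the orbit. -/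
theorem upper (v : AbsoluteValue K ℝ) (hβ : 1 < β)
    (Φ : Fin (m + 1) → MvPolynomial (Fin (m + 1)) K) (r : ℕ)
    {H : RB K (Fin (m + 1))} (hH : H ∈ supported K (SB (Fin (m + 1)) r)) :
    ∃ C : ℕ, ∀ x : ℕ → Fin (m + 1) → K, Orb v β Φ x → ∀ n : ℕ → ℕ,
      (∀ j, j < r → n j ≤ n (j + 1)) →
        v (ev (fun j => x (n j)) H) ≤ v (x (n r) (Fin.last m)) ^ C := by
  classical
  obtain ⟨c', hc'⟩ := pow_unbounded_of_one_lt (∑ s ∈ H.support, v (coeff s H)) hβ
  refine ⟨c' + H.totalDegree, fun x hx n hn => ?_⟩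
  set ρ := v (x (n r) (Fin.last m)) with hρ
  have hρ1 : 1 ≤ ρ := hx.one_le hβ _
  have hβρ : β ≤ ρ := hx.big _
  rw [mem_supported] at hH
  rw [ev, eval_eq]
  have hterm : ∀ s ∈ H.support, v (coeff s H * ∏ w ∈ s.support, x (n w.1) w.2 ^ s w) ≤
      v (coeff s H) * ρ ^ H.totalDegree := by
    intro s hs
    rw [map_mul]
    refine mul_le_mul_of_nonneg_left ?_ (v.nonneg _)
    rw [map_prod]
    have h1 : ∏ w ∈ s.support, v (x (n w.1) w.2 ^ s w) ≤ ∏ w ∈ s.support, ρ ^ s w := by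
      refine Finset.prod_le_prod (fun _ _ => v.nonneg _) fun w hw => ?_
      rw [map_pow]
      refine pow_le_pow_left₀ (v.nonneg _) ?_ _
      have hw1 : w ∈ H.vars := (mem_vars w).2 ⟨s, hs, hw⟩
      have hw2 : w.1 ≤ r := (hH hw1).2
      exact (hx.le _ _).trans (hx.mono hβ (le_last r hn _ hw2))
    refine h1.trans ?_
    rw [Finset.prod_pow_eq_pow_sum]
    refine pow_le_pow_right₀ hρ1 ?_
    exact le_totalDegree hs
  calc v (∑ s ∈ H.support, coeff s H * ∏ w ∈ s.support, x (n w.1) w.2 ^ s w)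
      ≤ ∑ s ∈ H.support, v (coeff s H * ∏ w ∈ s.support, x (n w.1) w.2 ^ s w) := v.sum_le _ _
    _ ≤ ∑ s ∈ H.support, v (coeff s H) * ρ ^ H.totalDegree := Finset.sum_le_sum hterm
    _ = (∑ s ∈ H.support, v (coeff s H)) * ρ ^ H.totalDegree := (Finset.sum_mul _ _ _).symm
    _ ≤ β ^ c' * ρ ^ H.totalDegree := mul_le_mul_of_nonneg_right hc'.le (by positivity)
    _ ≤ ρ ^ c' * ρ ^ H.totalDegree :=
        mul_le_mul_of_nonneg_right (pow_le_pow_left₀ (by linarith) hβρ _) (by positivity)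
    _ = _ := (pow_add _ _ _).symm

end Pool.Agent.Helper87.UN
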