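import Pool.Agent.Helper86.GT.Growth
import Pool.Agent.Helper87.UN.Orbit

/-!
# The multi-time lemma
-/

set_option autoImplicit false

namespace Pool.Agent.Helper87.UN

open MvPolynomial
open Pool.Agent.Helper86.MQ (pm)
open Pool.Agent.Helper86.GT (eval_bind_iterate)

section comp

variable {ι : Type*} {R S : Type*} [CommRing R] [CommRing S]

theorem map_bind_iterate (f : R →+* S) (Ψ : ι → MvPolynomial ι R) (k : ℕ)
    (H : MvPolynomial ι R) :
    map f ((fun G => bind₁ Ψ G)^[k] H) =
      (fun G => bind₁ (fun i => map f (Ψ i)) G)^[k] (map f H) := by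
  induction k generalizing H with
  | zero => rfl
  | succ k ih =>
    rw [Function.iterate_succ_apply, ih, Function.iterate_succ_apply, map_bind₁]

theorem bind_mem [Finite ι] (T : Subring (MvPolynomial ι R)) (S' : Subring R)
    (hT : ∀ F, F ∈ T ↔ ∀ s, coeff s F ∈ S') {Ψ : ι → MvPolynomial ι R} (hΨ : ∀ i, Ψ i ∈ T)
    {F : MvPolynomial ι R} (hF : F ∈ T) : bind₁ Ψ F ∈ T := by
  classical
  have h1 : bind₁ Ψ F = ∑ s ∈ F.support, C (coeff s F) * ∏ i ∈ s.support, Ψ i ^ s i := by
    rw [bind₁, aeval_def, eval₂_eq]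
    rfl
  rw [h1]
  refine T.sum_mem fun s _ => T.mul_mem ?_ (T.prod_mem fun i _ => T.pow_mem (hΨ i) _)
  rw [hT]
  intro t
  rw [coeff_C]
  split_ifs
  · exact (hT F).1 hF s
  · exact S'.zero_mem

end comp

variable {K : Type*} [Field K] {m : ℕ}

theorem iter_step {v : AbsoluteValue K ℝ} {β : ℝ}
    {Φ : Fin (m + 1) → MvPolynomial (Fin (m + 1)) K} {x : ℕ → Fin (m + 1) → K}
    (hx : Orb v β Φ x) (N k : ℕ) : (pm Φ)^[k] (x N) = x (N + k) := by
  induction k with
  | zero => rfl
  | succ k ih =>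
    rw [Function.iterate_succ_apply', ih, ← add_assoc, hx.step]

/-- the map over the ring of polynomials in several blocks -/
noncomputable def ΦR (Φ : Fin (m + 1) → MvPolynomial (Fin (m + 1)) K) (i : Fin (m + 1)) :
    MvPolynomial (Fin (m + 1)) (RB K (Fin (m + 1))) := map C (Φ i)

/-- the field of fractions -/
abbrev QK (K : Type*) [Field K] (m : ℕ) : Type _ := FractionRing (RB K (Fin (m + 1)))

/-- the map over the field of fractions -/
noncomputable def ΦQ (Φ : Fin (m + 1) → MvPolynomial (Fin (m + 1)) K) (i : Fin (m + 1)) :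
    MvPolynomial (Fin (m + 1)) (QK K m) :=
  map (algebraMap (RB K (Fin (m + 1))) (QK K m)) (ΦR Φ i)

/-- termination over the field of fractions -/
def Term (Φ : Fin (m + 1) → MvPolynomial (Fin (m + 1)) K) : Prop :=
  ∀ F : MvPolynomial (Fin (m + 1)) (QK K m), F ≠ 0 → ∃ k,
    coeff (Finsupp.single (Fin.last m) (((fun G => bind₁ (ΦQ Φ) G)^[k] F).totalDegree))
      ((fun G => bind₁ (ΦQ Φ) G)^[k] F) ≠ 0

/-- The dominated composition, over the ring of polynomials in the blocks `1, …, r`. -/
theorem exists_dom {Φ : Fin (m + 1) → MvPolynomial (Fin (m + 1)) K} (hterm : Term Φ) (r : ℕ)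
    {H : RB K (Fin (m + 1))} (hH : H ∈ supported K (SB (Fin (m + 1)) (r + 1))) (hH0 : H ≠ 0) :
    ∃ (k E : ℕ), ((fun G => bind₁ (ΦR Φ) G)^[k] (spl (r + 1) H)).totalDegree ≤ E ∧
      coeff (Finsupp.single (Fin.last m) E) ((fun G => bind₁ (ΦR Φ) G)^[k] (spl (r + 1) H)) ≠ 0 ∧
      ∀ s, coeff s ((fun G => bind₁ (ΦR Φ) G)^[k] (spl (r + 1) H)) ∈
        supported K (SB (Fin (m + 1)) r) := by
  classical
  set alg := algebraMap (RB K (Fin (m + 1))) (QK K m) with halg
  have hinj : Function.Injective alg := IsFractionRing.injective _ _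
  have h0 : map alg (spl (r + 1) H) ≠ 0 := by
    intro h
    exact spl_ne_zero (r + 1) hH0 (map_injective alg hinj (by rw [h, map_zero]))
  obtain ⟨k, hk⟩ := hterm _ h0
  have h1 : (fun G => bind₁ (ΦQ Φ) G)^[k] (map alg (spl (r + 1) H)) =
      map alg ((fun G => bind₁ (ΦR Φ) G)^[k] (spl (r + 1) H)) :=
    (map_bind_iterate alg (ΦR Φ) k _).symm
  set G := (fun G => bind₁ (ΦR Φ) G)^[k] (spl (r + 1) H) with hG
  rw [h1] at hk
  refine ⟨k, (map alg G).totalDegree, ?_, ?_, ?_⟩
  · refine Finset.sup_le fun s hs => ?_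
    refine le_totalDegree (p := map alg G) ?_
    rw [mem_support_iff, coeff_map]
    intro h
    exact mem_support_iff.1 hs (hinj (by rw [h, map_zero]))
  · intro h
    apply hk
    rw [coeff_map, h, map_zero]
  · obtain ⟨T, hT⟩ := coeff_mem_of (σ := Fin (m + 1))
      (supported K (SB (Fin (m + 1)) r)).toSubring
    have hmem : G ∈ T := by
      have hΨ : ∀ i, ΦR Φ i ∈ T := by
        intro i
        rw [hT]
        intro s
        rw [ΦR, coeff_map]
        exact (supported K (SB (Fin (m + 1)) r)).algebraMap_mem _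
      have hbase : spl (r + 1) H ∈ T := (hT _).2 fun s => coeff_spl_mem r hH s
      have : ∀ j, (fun G => bind₁ (ΦR Φ) G)^[j] (spl (r + 1) H) ∈ T := by
        intro j
        induction j with
        | zero => exact hbase
        | succ j ih =>
          rw [Function.iterate_succ_apply']
          exact bind_mem T _ hT hΨ ih
      exact this k
    exact (hT G).1 hmem

/-- **The multi-time lemma.** -/
theorem multi (v : AbsoluteValue K ℝ) {β : ℝ} (hβ : 1 < β)
    {Φ : Fin (m + 1) → MvPolynomial (Fin (m + 1)) K} (hterm : Term Φ) (r : ℕ) :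
    ∀ H : RB K (Fin (m + 1)), H ∈ supported K (SB (Fin (m + 1)) r) → H ≠ 0 →
      ∃ c C : ℕ, ∀ x : ℕ → Fin (m + 1) → K, Orb v β Φ x → ∀ n : ℕ → ℕ,
        (∀ j, j < r → n j + c ≤ n (j + 1)) →
          1 ≤ v (ev (fun j => x (n j)) H) * v (x (n r) (Fin.last m)) ^ C := by
  classical
  induction r with
  | zero =>
    intro H hH hH0
    have hempty : SB (Fin (m + 1)) 0 = ∅ := by
      ext w
      simp only [SB, Set.mem_setOf_eq, Set.mem_empty_iff_false, iff_false]
      omega
    rw [hempty, supported_empty] at hH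
    obtain ⟨a, rfl⟩ := Algebra.mem_bot.1 hH
    have ha : a ≠ 0 := by
      rintro rfl
      exact hH0 (map_zero _)
    have hva : 0 < v a := v.pos ha
    obtain ⟨C, hC⟩ := pow_unbounded_of_one_lt (v a)⁻¹ hβ
    refine ⟨0, C, fun x hx n _ => ?_⟩
    have h1 : ev (fun j => x (n j)) (algebraMap K (RB K (Fin (m + 1))) a) = a := by
      rw [ev]
      exact eval_C a
    rw [h1]
    have h2 : β ^ C ≤ v (x (n 0) (Fin.last m)) ^ C :=
      pow_le_pow_left₀ (by linarith) (hx.big _) _
    calc (1 : ℝ) = v a * (v a)⁻¹ := (mul_inv_cancel₀ hva.ne').symm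
      _ ≤ v a * β ^ C := mul_le_mul_of_nonneg_left hC.le hva.le
      _ ≤ _ := mul_le_mul_of_nonneg_left h2 hva.le
  | succ r ih =>
    intro H hH hH0
    obtain ⟨k, E, hdeg, hl, hcoef⟩ := exists_dom hterm r hH hH0
    set G := (fun G => bind₁ (ΦR Φ) G)^[k] (spl (r + 1) H) with hG
    set l := coeff (Finsupp.single (Fin.last m) E) G with hldef
    obtain ⟨c₁, C₁, hlow⟩ := ih l (hcoef _) hl
    choose Cf hCf using fun s => upper v hβ Φ r (hcoef s)
    obtain ⟨c₂, hc₂⟩ := pow_unbounded_of_one_lt (G.support.card : ℝ) hβ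
    obtain ⟨c₃, hc₃⟩ := pow_unbounded_of_one_lt (2 : ℝ) hβ
    set C₂ : ℕ := c₂ + ∑ s ∈ G.support, Cf s with hC₂
    refine ⟨c₁ + (C₁ + C₂ + c₃) + k + 1, C₁ + c₃, fun x hx n hn => ?_⟩
    set X := v (x (n r) (Fin.last m)) with hX
    have hX1 : 1 ≤ X := hx.one_le hβ _
    have hβX : β ≤ X := hx.big _
    have hn' : ∀ j, j < r → n j + c₁ ≤ n (j + 1) := fun j hj => by
      have := hn j (by omega)
      omega
    have hlow' := hlow x hx n hn'
    set e := ev (fun j => x (n j)) with he
    -- the index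
    have hnr := hn r (by omega)
    obtain ⟨N, hN⟩ : ∃ N, n (r + 1) = N + 1 + k := ⟨n (r + 1) - k - 1, by omega⟩
    have hNr : n r + (C₁ + C₂ + c₃) ≤ N := by omega
    -- the polynomial at the points
    have hdeg' : (map e G).totalDegree ≤ E :=
      (Finset.sup_mono (support_map_subset _ _)).trans hdeg
    have hsum : ∑ s ∈ (map e G).support, v (coeff s (map e G)) ≤ X ^ C₂ := by
      calc ∑ s ∈ (map e G).support, v (coeff s (map e G))
          ≤ ∑ s ∈ G.support, v (coeff s (map e G)) :=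
            Finset.sum_le_sum_of_subset_of_nonneg (support_map_subset _ _)
              fun s _ _ => v.nonneg _
        _ ≤ ∑ s ∈ G.support, X ^ (∑ s ∈ G.support, Cf s) := by
            refine Finset.sum_le_sum fun s hs => ?_
            rw [coeff_map]
            refine (hCf s x hx n fun j hj => by have := hn' j hj; omega).trans ?_
            exact pow_le_pow_right₀ hX1
              (Finset.single_le_sum (f := Cf) (fun _ _ => Nat.zero_le _) hs)
        _ = (G.support.card : ℝ) * X ^ (∑ s ∈ G.support, Cf s) := by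
            rw [Finset.sum_const, nsmul_eq_mul]
        _ ≤ X ^ c₂ * X ^ (∑ s ∈ G.support, Cf s) := by
            refine mul_le_mul_of_nonneg_right ?_ (by positivity)
            exact hc₂.le.trans (pow_le_pow_left₀ (by linarith) hβX _)
        _ = X ^ C₂ := by rw [← pow_add]
    have hg : coeff (Finsupp.single (Fin.last m) E) (map e G) = e l := coeff_map _ _ _
    have h2X : 2 ≤ X ^ c₃ := hc₃.le.trans (pow_le_pow_left₀ (by linarith) hβX _)
    have hXN : X ^ (C₁ + C₂ + c₃) ≤ v (x N (Fin.last m)) :=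
      (hx.pow_le hβ (n r) _).trans (hx.mono hβ hNr)
    have hS : 2 * ∑ s ∈ (map e G).support, v (coeff s (map e G)) ≤
        v (coeff (Finsupp.single (Fin.last m) E) (map e G)) * v (x N (Fin.last m)) := by
      rw [hg]
      calc 2 * ∑ s ∈ (map e G).support, v (coeff s (map e G)) ≤ X ^ c₃ * X ^ C₂ :=
            mul_le_mul h2X hsum (Finset.sum_nonneg fun _ _ => v.nonneg _) (by positivity)
        _ = X ^ c₃ * X ^ C₂ * 1 := (mul_one _).symm
        _ ≤ X ^ c₃ * X ^ C₂ * (v (e l) * X ^ C₁) :=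
            mul_le_mul_of_nonneg_left hlow' (by positivity)
        _ = v (e l) * X ^ (C₁ + C₂ + c₃) := by
            rw [pow_add, pow_add]
            ring
        _ ≤ _ := mul_le_mul_of_nonneg_left hXN (v.nonneg _)
    have hdom := hx.dom hβ N hdeg' hS
    rw [hg] at hdom
    have hev : eval (x (N + 1)) (map e G) = e H := by
      rw [hG, map_bind_iterate e (ΦR Φ) k]
      have h1 : (fun i => map e (ΦR Φ i)) = Φ := by
        funext i
        rw [ΦR, map_map]
        have h2 : e.comp (C : K →+* RB K (Fin (m + 1))) = RingHom.id K := by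
          ext a
          exact eval_C a
        rw [h2, MvPolynomial.map_id]
      rw [h1, eval_bind_iterate, iter_step hx, ← hN]
      exact ev_spl (fun j => x (n j)) (r + 1) H
    rw [hev] at hdom
    have hXE : 1 ≤ v (x (N + 1) (Fin.last m)) ^ E := one_le_pow₀ (hx.one_le hβ _)
    have h1 : v (e l) ≤ 2 * v (e H) := by
      refine le_trans ?_ hdom
      exact le_mul_of_one_le_right (v.nonneg _) hXE
    have hXr : X ≤ v (x (n (r + 1)) (Fin.last m)) := hx.mono hβ (by omega)
    calc (1 : ℝ) ≤ v (e l) * X ^ C₁ := hlow'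
      _ ≤ (2 * v (e H)) * X ^ C₁ := mul_le_mul_of_nonneg_right h1 (by positivity)
      _ ≤ (X ^ c₃ * v (e H)) * X ^ C₁ :=
          mul_le_mul_of_nonneg_right (mul_le_mul_of_nonneg_right h2X (v.nonneg _))
            (by positivity)
      _ = v (e H) * X ^ (C₁ + c₃) := by
          rw [pow_add]
          ring
      _ ≤ _ := mul_le_mul_of_nonneg_left (pow_le_pow_left₀ (by linarith) hXr _) (v.nonneg _)

end Pool.Agent.Helper87.UN
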