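import Pool.Agent.Helper26.MQ.Idx
import Pool.Agent.Helper87.UN.Multi

/-!
# A uniform bound for the number of returns
-/

set_option autoImplicit false

namespace Pool.Agent.Helper87.UN

open MvPolynomial
open Pool.Agent.Helper86.MQ (pm)

theorem greedy (c : ℕ) (P : ℕ) : ∀ (b : ℕ) (R : Finset ℕ), (∀ r ∈ R, b ≤ r) → c * P < R.card →
    ∃ n : ℕ → ℕ, n 0 = b ∧ ∀ j, j < P → n j + c ≤ n (j + 1) ∧ n (j + 1) ∈ R := by
  induction P with
  | zero =>
    intro b R _ _
    exact ⟨fun _ => b, rfl, fun j hj => absurd hj (Nat.not_lt_zero j)⟩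
  | succ P ih =>
    intro b R hb hR
    set R' : Finset ℕ := R.filter fun r => b + c ≤ r with hR'
    have h1 : R.card ≤ R'.card + c := by
      have h2 : R ⊆ R' ∪ Finset.Ico b (b + c) := by
        intro r hr
        rw [Finset.mem_union, hR', Finset.mem_filter, Finset.mem_Ico]
        have := hb r hr
        by_cases h : b + c ≤ r
        · exact Or.inl ⟨hr, h⟩
        · exact Or.inr ⟨this, by omega⟩
      refine (Finset.card_le_card h2).trans ((Finset.card_union_le _ _).trans ?_)
      rw [Nat.card_Ico]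
      omega
    have h2 : c * P < R'.card := by
      rw [Nat.mul_succ] at hR
      omega
    have hne : R'.Nonempty := Finset.card_pos.1 (by omega)
    obtain ⟨n', h3, h4⟩ := ih (R'.min' hne) R' (fun r hr => R'.min'_le r hr) h2
    refine ⟨fun j => if j = 0 then b else n' (j - 1), rfl, fun j hj => ?_⟩
    have hmem : R'.min' hne ∈ R' := R'.min'_mem hne
    have hsub : ∀ r ∈ R', r ∈ R ∧ b + c ≤ r := fun r hr => by
      rw [hR', Finset.mem_filter] at hr
      exact hr
    rcases Nat.eq_zero_or_pos j with hj0 | hj0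
    · subst hj0
      simp only [if_pos, zero_add, one_ne_zero, if_false, Nat.sub_self]
      rw [h3]
      exact ⟨(hsub _ hmem).2, (hsub _ hmem).1⟩
    · obtain ⟨i, rfl⟩ : ∃ i, j = i + 1 := ⟨j - 1, by omega⟩
      simp only [Nat.succ_ne_zero, if_false, Nat.add_sub_cancel]
      have h5 := h4 i (by omega)
      exact ⟨h5.1, (hsub _ h5.2).1⟩

variable {K : Type*} [Field K] {m : ℕ}

/-- the exponent `s` in the block `r` -/
noncomputable def emb (r : ℕ) (s : Fin (m + 1) →₀ ℕ) : ℕ × Fin (m + 1) →₀ ℕ :=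
  s.mapDomain (Prod.mk r)

theorem emb_same (r : ℕ) (s : Fin (m + 1) →₀ ℕ) (a : Fin (m + 1)) : emb r s (r, a) = s a :=
  Finsupp.mapDomain_apply (Prod.mk_right_injective r) s a

theorem emb_ne {r r' : ℕ} (h : r ≠ r') (s : Fin (m + 1) →₀ ℕ) (a : Fin (m + 1)) :
    emb r s (r', a) = 0 := by
  refine Finsupp.mapDomain_notin_range _ _ ?_
  rintro ⟨b, hb⟩
  exact h (congrArg Prod.fst hb)

section det

variable {P : ℕ} (e : Fin P → (Fin (m + 1) →₀ ℕ))

/-- the matrix of the monomials -/
noncomputable def matM (K : Type*) [Field K] {m : ℕ} {P : ℕ} (e : Fin P → (Fin (m + 1) →₀ ℕ)) :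
    Matrix (Fin P) (Fin P) (RB K (Fin (m + 1))) :=
  Matrix.of fun j i => monomial (emb ((j : ℕ) + 1) (e i)) (1 : K)

theorem det_ne_zero (he : Function.Injective e) : (matM K e).det ≠ 0 := by
  classical
  set t : ℕ × Fin (m + 1) →₀ ℕ := ∑ j : Fin P, emb ((j : ℕ) + 1) (e j) with ht
  intro h
  have h1 := congrArg (coeff t) h
  rw [Matrix.det_apply', coeff_sum, coeff_zero] at h1
  have h2 : ∀ σ : Equiv.Perm (Fin P),
      coeff t (((Equiv.Perm.sign σ : ℤ) : RB K (Fin (m + 1))) * ∏ i, matM K e (σ i) i) =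
        if σ = 1 then 1 else 0 := by
    intro σ
    have h3 : ∏ i, matM K e (σ i) i =
        monomial (∑ i, emb ((σ i : Fin P) + 1 : ℕ) (e i)) (1 : K) := by
      simp only [matM, Matrix.of_apply]
      rw [monomial_sum_one]
    have h4 : (((Equiv.Perm.sign σ : ℤ) : RB K (Fin (m + 1)))) =
        C ((Equiv.Perm.sign σ : ℤ) : K) := by simp
    rw [h3, h4, coeff_C_mul, coeff_monomial]
    by_cases hσ : σ = 1
    · subst hσ
      rw [if_pos rfl, if_pos]
      · simp
      · rfl
    · rw [if_neg hσ, if_neg, mul_zero]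
      intro h5
      apply hσ
      ext i₀
      have h6 : e i₀ = e (σ i₀) := by
        ext a
        have h7 := DFunLike.congr_fun h5 (((σ i₀ : Fin P) : ℕ) + 1, a)
        rw [ht, Finsupp.finset_sum_apply, Finsupp.finset_sum_apply,
          Finset.sum_eq_single i₀, Finset.sum_eq_single (σ i₀), emb_same, emb_same] at h7
        · exact h7
        · intro b _ hb
          exact emb_ne (fun h8 => hb (Fin.ext (by omega))) _ _
        · intro h8
          exact absurd (Finset.mem_univ _) h8
        · intro b _ hb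
          refine emb_ne (fun h8 => hb (σ.injective (Fin.ext (by omega)))) _ _
        · intro h8
          exact absurd (Finset.mem_univ _) h8
      rw [← he h6]
      rfl
  rw [Finset.sum_congr rfl fun σ _ => h2 σ, Finset.sum_ite_eq', if_pos (Finset.mem_univ _)] at h1
  exact one_ne_zero h1

theorem det_mem : (matM K e).det ∈ supported K (SB (Fin (m + 1)) P) := by
  classical
  have h1 : ∀ j i, matM K e j i ∈ supported K (SB (Fin (m + 1)) P) := by
    intro j i
    rw [matM, Matrix.of_apply, mem_supported, vars_monomial one_ne_zero]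
    intro w hw
    have hw1 : w ∈ (emb ((j : ℕ) + 1) (e i)).support := hw
    rw [Finsupp.mem_support_iff] at hw1
    by_cases h2 : (j : ℕ) + 1 = w.1
    · have := j.2
      exact ⟨by omega, by omega⟩
    · exact absurd (emb_ne h2 (e i) w.2) hw1
  rw [Matrix.det_apply']
  refine Subalgebra.sum_mem _ fun σ _ => Subalgebra.mul_mem _ ?_
    (Subalgebra.prod_mem _ fun i _ => h1 _ _)
  exact Subalgebra.intCast_mem _ _

theorem ev_det (x : ℕ → Fin (m + 1) → K) (n : ℕ → ℕ) :
    ev (fun j => x (n j)) (matM K e).det =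
      (Matrix.of fun (j i : Fin P) => ∏ a, x (n ((j : ℕ) + 1)) a ^ e i a).det := by
  classical
  rw [RingHom.map_det]
  congr 1
  ext j i
  rw [RingHom.mapMatrix_apply, Matrix.map_apply, matM, Matrix.of_apply, Matrix.of_apply, ev,
    eval_monomial, one_mul, emb, Finsupp.prod_mapDomain_index_inj (Prod.mk_right_injective _)]
  rw [Finsupp.prod_fintype]
  intro a
  exact pow_zero _

end det

/-- **A uniform bound for the number of returns.** -/
theorem unif_count (v : AbsoluteValue K ℝ) {β : ℝ} (hβ : 1 < β)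
    {Φ : Fin (m + 1) → MvPolynomial (Fin (m + 1)) K} (hterm : Term Φ) (D : ℕ) :
    ∃ C : ℕ, ∀ x : ℕ → Fin (m + 1) → K, Orb v β Φ x →
      ∀ F : MvPolynomial (Fin (m + 1)) K, F ≠ 0 → F.totalDegree ≤ D →
        {n | eval (x n) F = 0}.encard ≤ C := by
  classical
  haveI : Fintype {s : Fin (m + 1) →₀ ℕ // s.degree ≤ D} :=
    Pool.Agent.Helper26.MQ.instFintypeExp m D
  set P := Fintype.card {s : Fin (m + 1) →₀ ℕ // s.degree ≤ D} with hP
  set e' := (Fintype.equivFin {s : Fin (m + 1) →₀ ℕ // s.degree ≤ D}).symm with he'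
  set e : Fin P → (Fin (m + 1) →₀ ℕ) := fun i => (e' i).1 with he
  have hinj : Function.Injective e := fun i j h => e'.injective (Subtype.ext h)
  obtain ⟨c, C, h⟩ := multi v hβ hterm P _ (det_mem (K := K) e) (det_ne_zero e hinj)
  refine ⟨c * P, fun x hx F hF hFD => ?_⟩
  by_contra hcon
  rw [not_le] at hcon
  obtain ⟨T, hTS, hT⟩ := Set.exists_subset_encard_eq
    (s := {n | eval (x n) F = 0}) (k := ((c * P + 1 : ℕ) : ℕ∞)) (by
      rw [Nat.cast_add, Nat.cast_one]
      exact Order.add_one_le_of_lt hcon)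
  have hTfin : T.Finite := Set.finite_of_encard_eq_coe hT
  have hcard : hTfin.toFinset.card = c * P + 1 := by
    have h1 := hTfin.encard_eq_coe_toFinset_card
    rw [hT] at h1
    exact_mod_cast h1.symm
  obtain ⟨n, hn0, hn⟩ := greedy c P 0 hTfin.toFinset (fun _ _ => Nat.zero_le _) (by omega)
  have h1 := h x hx n fun j hj => (hn j hj).1
  have h2 : ev (fun j => x (n j)) (matM K e).det = 0 := by
    rw [ev_det]
    apply Matrix.exists_mulVec_eq_zero_iff.1
    refine ⟨fun i => coeff (e i) F, ?_, ?_⟩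
    · intro h3
      obtain ⟨s, hs⟩ := ne_zero_iff.1 hF
      have hsD : s.degree ≤ D := (le_totalDegree (mem_support_iff.2 hs)).trans hFD
      have h4 : coeff (e (e'.symm ⟨s, hsD⟩)) F = 0 := congrFun h3 (e'.symm ⟨s, hsD⟩)
      apply hs
      have h5 : e (e'.symm ⟨s, hsD⟩) = s := by
        rw [he]
        simp
      rw [h5] at h4
      exact h4
    · funext j
      have h3 : eval (x (n ((j : ℕ) + 1))) F = 0 := by
        have h4 := (hn j j.2).2
        rw [Set.Finite.mem_toFinset] at h4
        exact hTS h4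
      rw [Matrix.mulVec, dotProduct, Pi.zero_apply, ← h3, eval_eq']
      have h4 : ∑ s ∈ F.support, coeff s F * ∏ a, x (n ((j : ℕ) + 1)) a ^ s a =
          ∑ s : {s : Fin (m + 1) →₀ ℕ // s.degree ≤ D},
            coeff s.1 F * ∏ a, x (n ((j : ℕ) + 1)) a ^ s.1 a := by
        symm
        refine Finset.sum_bij_ne_zero (fun s _ _ => s.1) ?_ ?_ ?_ ?_
        · intro s _ hs
          rw [mem_support_iff]
          exact left_ne_zero_of_mul hs
        · intro s _ _ s' _ _ hss
          exact Subtype.ext hss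
        · intro s hs _
          exact ⟨⟨s, (le_totalDegree hs).trans hFD⟩, Finset.mem_univ _, by
            first | assumption | rfl, rfl⟩
        · intro s _ _
          rfl
      rw [h4, ← Equiv.sum_comp e']
      refine Finset.sum_congr rfl fun i _ => ?_
      rw [Matrix.of_apply, mul_comm]
  rw [h2, map_zero, zero_mul] at h1
  linarith

end Pool.Agent.Helper87.UN
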