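import Pool.Agent.Helper86.DV.Finite
import Pool.Agent.Helper26.DV.Term
import Pool.Agent.Helper87.UN.Det

/-!
# Uniform escape
-/

set_option autoImplicit false

namespace Pool.Agent.Helper87.UN

open Finset MvPolynomial
open Pool.Agent.Helper86.MQ (pm)
open Pool.Agent.Helper86.DV
open Pool.Agent.Helper26.DV
open Pool.Agent.Helper26.GG (GEsc)
open Pool.Agent.Helper26.MQ (red inc cases_point)

variable {m : ℕ} {w : Fin (m + 1) → ℕ} {p : ℕ} [hp : Fact p.Prime]

/-- the states: level and reduction -/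
abbrev StT (w : Fin (m + 1) → ℕ) (p : ℕ) : Type :=
  {b : ℕ × (Fin (m + 1) → ZMod p) // b.2 ≠ 0 ∧ b.1 ≤ ∑ i, w i}

/-- the relation of the states -/
def rel (c : VIdx m w → ZMod p) (a b : StT w p) : Prop :=
  b.1.1 ≤ a.1.1 ∧ (a.1.1 = b.1.1 → Rel c b.1.1 b.1.2 a.1.2)

theorem rel_wf {c : VIdx m w → ZMod p} (h2 : V2 c) : WellFounded (rel c) := by
  rw [wellFounded_iff_isEmpty_descending_chain]
  refine ⟨fun ⟨f, hf⟩ => ?_⟩
  have hmono : Monotone fun n => (f n).1.1 := monotone_nat_of_le_succ fun n => (hf n).1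
  obtain ⟨n₀, hn₀⟩ : ∃ n₀, ∀ n, n₀ ≤ n → (f n).1.1 = (f n₀).1.1 := by
    have hb : BddAbove (Set.range fun n => (f n).1.1) :=
      ⟨∑ i, w i, by rintro _ ⟨n, rfl⟩; exact (f n).2.2⟩
    obtain ⟨n₀, hn₀⟩ := Nat.sSup_mem (Set.range_nonempty fun n => (f n).1.1) hb
    refine ⟨n₀, fun n hn => le_antisymm ?_ (hmono hn)⟩
    simp only at hn₀
    rw [hn₀]
    exact le_csSup hb ⟨n, rfl⟩
  have h3 := h2 (f n₀).1.1 (fun n => (f (n₀ + n)).1.2) (by
    intro n
    have h4 := hn₀ (n₀ + n) (by omega)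
    have h5 := hn₀ (n₀ + n + 1) (by omega)
    have h6 := (hf (n₀ + n)).2 (by rw [h5, h4])
    rw [h4] at h6
    exact h6)
  exact (f n₀).2.1 h3

/-- Escape of integral points in bounded time. -/
theorem escA_bdd (hd : 2 ≤ w (Fin.last m)) {Φ : Fin (m + 1) → MvPolynomial (Fin (m + 1)) ℚ_[p]}
    {c : VIdx m w → ZMod p} {a : VIdx m w → ℤ_[p]} {s : ℚ_[p]}
    (ha : ∀ k, PadicInt.toZMod (a k) = c k) (hs : ‖s‖ = (p : ℝ))
    (hΦ : ∀ x i, pm Φ x i = (∑ t : {s : Fin (m + 1) →₀ ℕ // s.degree ≤ w i},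
        ((a ⟨i, t⟩ : ℤ_[p]) : ℚ_[p]) * ∏ j, x j ^ (t : Fin (m + 1) →₀ ℕ) j) +
          if i = Fin.last m then s * x (Fin.last m) ^ w (Fin.last m) else 0) (k : ℕ) : ∀
    (y : Fin (m + 1) → ℤ_[p]) (_ : (pm (vP c))^[k] (red y) (Fin.last m) ≠ 0),
    ∃ n ≤ k + 1, GEsc ((pm Φ)^[n] (inc y)) := by
  induction k with
  | zero =>
    intro y hy
    exact ⟨1, by omega, stepA' hs hΦ y hy⟩
  | succ k ih =>
    intro y hy
    by_cases h0 : red y (Fin.last m) = 0
    · obtain ⟨y', h1, h2⟩ := stepA hd ha hs hΦ y h0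
      rw [Function.iterate_succ_apply, ← h2] at hy
      obtain ⟨n, hnk, hn⟩ := ih y' hy
      refine ⟨n + 1, by omega, ?_⟩
      rw [Function.iterate_succ_apply, h1]
      exact hn
    · exact ⟨1, by omega, stepA' hs hΦ y h0⟩

/-- Escape of large points in bounded time. -/
theorem escC_bdd (hw : ∀ i, 1 ≤ w i) (hd : 2 ≤ w (Fin.last m))
    (hlt : ∀ i, i ≠ Fin.last m → w i < w (Fin.last m))
    {Φ : Fin (m + 1) → MvPolynomial (Fin (m + 1)) ℚ_[p]}
    {c : VIdx m w → ZMod p} {a : VIdx m w → ℤ_[p]} {s : ℚ_[p]}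
    (ha : ∀ k, PadicInt.toZMod (a k) = c k) (hs : ‖s‖ = (p : ℝ))
    (hΦ : ∀ x i, pm Φ x i = (∑ t : {s : Fin (m + 1) →₀ ℕ // s.degree ≤ w i},
        ((a ⟨i, t⟩ : ℤ_[p]) : ℚ_[p]) * ∏ j, x j ^ (t : Fin (m + 1) →₀ ℕ) j) +
          if i = Fin.last m then s * x (Fin.last m) ^ w (Fin.last m) else 0)
    (h2 : V2 c) :
    ∃ N : ℕ, ∀ (y : Fin (m + 1) → ℤ_[p]) (k : ℕ), red y ≠ 0 → 1 ≤ k →
      ∃ n ≤ N, GEsc ((pm Φ)^[n] (((p : ℚ_[p])⁻¹) ^ k • inc y)) := by
  classical
  haveI : Finite (StT w p) := by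
    refine Finite.of_injective (β := Fin (∑ i, w i + 1) × (Fin (m + 1) → ZMod p))
      (fun b => (⟨b.1.1, Nat.lt_succ_of_le b.2.2⟩, b.1.2)) ?_
    intro b b' h
    have h1 := congrArg (fun t => (t.1 : ℕ)) h
    have h3 := congrArg Prod.snd h
    exact Subtype.ext (Prod.ext h1 h3)
  haveI : Fintype (StT w p) := Fintype.ofFinite _
  have key : ∀ b : StT w p, ∃ N : ℕ, ∀ (y : Fin (m + 1) → ℤ_[p]) (k : ℕ), 1 ≤ k →
      red y = b.1.2 → IsLam w (red y) b.1.1 →
        ∃ n ≤ N, GEsc ((pm Φ)^[n] (((p : ℚ_[p])⁻¹) ^ k • inc y)) := by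
    intro b
    induction b using (rel_wf h2).induction with
    | _ b ih =>
      choose! Nf hNf using ih
      refine ⟨1 + ∑ a, Nf a, fun y k hk hy hl => ?_⟩
      by_cases h0 : red y (Fin.last m) = 0
      · by_cases hne : GEsc (pm Φ (((p : ℚ_[p])⁻¹) ^ k • inc y))
        · exact ⟨1, by omega, hne⟩
        · obtain ⟨k', y', l', h1, h3, h4, h5, h6, h7, h8⟩ :=
            stepC hw hd hlt ha hs hΦ h2 y (by rw [hy]; exact b.2.1) h0 k hk hne hl
          have hlW : l' ≤ ∑ i, w i := by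
            obtain ⟨i, -, hi⟩ := h6.1
            rw [← hi]
            exact Finset.single_le_sum (f := w) (fun _ _ => Nat.zero_le _) (Finset.mem_univ i)
          have hr : rel c ⟨(l', red y'), h3, hlW⟩ b := by
            refine ⟨h7, fun h => ?_⟩
            have h9 := h8 h
            rw [hy] at h9
            exact h9
          obtain ⟨n, hn, hn2⟩ := hNf _ hr y' k' h1 rfl h6
          refine ⟨n + 1, ?_, ?_⟩
          · have h9 := Finset.single_le_sum (f := Nf) (fun _ _ => Nat.zero_le _)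
              (Finset.mem_univ (⟨(l', red y'), h3, hlW⟩ : StT w p))
            omega
          · rw [Function.iterate_succ_apply, h5]
            exact hn2
      · exact ⟨0, by omega, esc_of_red hk y h0⟩
  choose Nf hNf using key
  refine ⟨∑ b, Nf b, fun y k hy hk => ?_⟩
  obtain ⟨l, hl⟩ := exists_isLam w hy
  have hlW : l ≤ ∑ i, w i := by
    obtain ⟨i, -, hi⟩ := hl.1
    rw [← hi]
    exact Finset.single_le_sum (f := w) (fun _ _ => Nat.zero_le _) (Finset.mem_univ i)
  obtain ⟨n, hn, hn2⟩ := hNf ⟨(l, red y), hy, hlW⟩ y k hk rfl hl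
  exact ⟨n, hn.trans (Finset.single_le_sum (f := Nf) (fun _ _ => Nat.zero_le _)
    (Finset.mem_univ _)), hn2⟩

/-- the region is invariant -/
theorem gesc_add {d e : ℕ} (hed : e ≤ d)
    {Φ : Fin (m + 1) → MvPolynomial (Fin (m + 1)) ℚ_[p]}
    (hΦ : Pool.Agent.Helper26.GG.GPre p m d e Φ) {x : Fin (m + 1) → ℚ_[p]} {n : ℕ}
    (hx : GEsc ((pm Φ)^[n] x)) (j : ℕ) : GEsc ((pm Φ)^[n + j] x) := by
  induction j with
  | zero => exact hx
  | succ j ih =>
    rw [← add_assoc, Function.iterate_succ_apply']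
    exact (Pool.Agent.Helper86.GG.gesc_step hed hΦ ih).1

/-- **Uniform escape.** -/
theorem vtrap_unif (hw : ∀ i : Fin m, 1 ≤ w i.castSucc ∧ w i.castSucc < w (Fin.last m))
    (hd : 2 ≤ w (Fin.last m)) {Φ : Fin (m + 1) → MvPolynomial (Fin (m + 1)) ℚ_[p]}
    (hΦ : VPre p m w Φ) {c : VIdx m w → ZMod p} (hc : VRed Φ c) (h1 : V1 c) (h2 : V2 c) :
    ∃ N : ℕ, ∀ x : Fin (m + 1) → ℚ_[p], GEsc ((pm Φ)^[N] x) := by
  classical
  have hw1 : ∀ i, 1 ≤ w i := by
    intro i
    refine Fin.lastCases (by omega) (fun i => (hw i).1) i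
  have hlt : ∀ i, i ≠ Fin.last m → w i < w (Fin.last m) := by
    intro i
    refine Fin.lastCases (fun h => absurd rfl h) (fun i _ => (hw i).2) i
  obtain ⟨a, s, ha, hs, hΦx⟩ := exists_lift hΦ hc
  obtain ⟨N₁, hN₁⟩ := escC_bdd hw1 hd hlt ha hs hΦx h2
  have hV1 : ∀ x : Fin (m + 1) → ZMod p, ∃ k, (pm (vP c))^[k] x (Fin.last m) ≠ 0 := by
    intro x
    by_cases h0 : x (Fin.last m) = 0
    · exact h1 x h0
    · exact ⟨0, h0⟩
  choose Nf hNf using hV1
  have hNf' : ∀ x, Nf x ≤ ∑ x, Nf x := fun x =>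
    Finset.single_le_sum (f := Nf) (fun _ _ => Nat.zero_le _) (Finset.mem_univ x)
  obtain ⟨e, he1, he2⟩ := exists_bound (fun i => (hw i).2) (by omega : 1 ≤ w (Fin.last m))
  refine ⟨N₁ + (∑ x, Nf x + 1), fun x => ?_⟩
  have hex : ∃ n ≤ N₁ + (∑ x, Nf x + 1), GEsc ((pm Φ)^[n] x) := by
    rcases cases_point x with ⟨y, rfl⟩ | ⟨y, k, hk, hy, rfl⟩
    · obtain ⟨n, hn, hn2⟩ := escA_bdd hd ha hs hΦx (Nf (red y)) y (hNf (red y))
      have := hNf' (red y)
      exact ⟨n, by omega, hn2⟩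
    · obtain ⟨n, hn, hn2⟩ := hN₁ y k hy hk
      exact ⟨n, by omega, hn2⟩
  obtain ⟨n, hn, hn2⟩ := hex
  obtain ⟨j, hj⟩ := Nat.exists_eq_add_of_le hn
  rw [hj]
  exact gesc_add he1.le (gpre_of_vpre he2 hΦ) hn2 j

/-- the absolute value -/
noncomputable def av (p : ℕ) [Fact p.Prime] : AbsoluteValue ℚ_[p] ℝ where
  toFun x := ‖x‖
  map_mul' := norm_mul
  nonneg' := norm_nonneg
  eq_zero' _ := norm_eq_zero
  add_le' := norm_add_le

/-- The orbits after the escape time belong to the class. -/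
theorem orb_of {d e : ℕ} (hd : 2 ≤ d) (hed : e < d)
    {Φ : Fin (m + 1) → MvPolynomial (Fin (m + 1)) ℚ_[p]}
    (hΦ : Pool.Agent.Helper26.GG.GPre p m d e Φ) {N : ℕ}
    {x : Fin (m + 1) → ℚ_[p]} (hx : GEsc ((pm Φ)^[N] x)) :
    Orb (av p) (p : ℝ) Φ fun n => (pm Φ)^[N + n] x := by
  classical
  have hp1 : (1 : ℝ) < p := by exact_mod_cast hp.out.one_lt
  have hall := fun j => gesc_add hed.le hΦ hx j
  have hstep : ∀ n, (pm Φ)^[N + (n + 1)] x = pm Φ ((pm Φ)^[N + n] x) := fun n =>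
    Function.iterate_succ_apply' _ _ _
  refine ⟨hstep, fun n => (hall n).1, fun n i => (hall n).2 i, fun n => ?_, fun n i hi => ?_⟩
  · have h1 := (Pool.Agent.Helper86.GG.gesc_step hed.le hΦ (hall n)).2
    rw [← hstep] at h1
    refine le_trans ?_ h1
    exact pow_le_pow_right₀ (hp1.le.trans (hall n).1) hd
  · set y := (pm Φ)^[N + n] x with hy
    set ρ := ‖y (Fin.last m)‖ with hρ
    have hρ1 : 1 ≤ ρ := hp1.le.trans (hall n).1
    have h1 := (Pool.Agent.Helper86.GG.gesc_step hed.le hΦ (hall n)).2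
    have h2 : ‖pm Φ y i‖ ≤ ρ ^ e := by
      rw [pm, eval_eq']
      refine IsUltrametricDist.norm_sum_le_of_forall_le_of_nonneg (by positivity) fun t ht => ?_
      rw [norm_mul, norm_prod]
      have h3 : ∏ j, ‖y j ^ t j‖ ≤ ρ ^ e := by
        calc ∏ j, ‖y j ^ t j‖ ≤ ∏ j, ρ ^ t j := by
              refine Finset.prod_le_prod (fun j _ => norm_nonneg _) fun j _ => ?_
              rw [norm_pow]
              exact pow_le_pow_left₀ (norm_nonneg _) ((hall n).2 j) _
          _ = ρ ^ t.degree := by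
              rw [Finset.prod_pow_eq_pow_sum, Finsupp.degree_eq_sum]
          _ ≤ ρ ^ e := by
              refine pow_le_pow_right₀ hρ1 ((le_totalDegree ht).trans ?_)
              have h4 := hΦ.deg i
              rwa [Pool.Agent.Helper26.GT.wd, if_neg hi] at h4
      calc ‖coeff t (Φ i)‖ * ∏ j, ‖y j ^ t j‖ ≤ 1 * ρ ^ e :=
            mul_le_mul (hΦ.int i t fun h => hi h.1) h3
              (Finset.prod_nonneg fun j _ => norm_nonneg _) zero_le_one
        _ = ρ ^ e := one_mul _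
    change ‖(pm Φ)^[N + (n + 1)] x i‖ * ρ ≤ ‖(pm Φ)^[N + (n + 1)] x (Fin.last m)‖
    rw [hstep]
    calc ‖pm Φ y i‖ * ρ ≤ ρ ^ e * ρ := mul_le_mul_of_nonneg_right h2 (by linarith)
      _ = ρ ^ (e + 1) := (pow_succ _ _).symm
      _ ≤ ρ ^ d := pow_le_pow_right₀ hρ1 hed
      _ ≤ _ := h1

/-- The condition is stable under extension of the field. -/
theorem vdom_map {K K' : Type*} [Field K] [Field K'] (f : K →+* K')
    {Φ : Fin (m + 1) → MvPolynomial (Fin (m + 1)) K} (hΦ : VDom w Φ) :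
    VDom w fun i => map f (Φ i) := by
  classical
  obtain ⟨hdeg, L, U, b, h1, h2, h3, h4, h5, h6, h7⟩ := hΦ
  have hvD : vD w (U.map f) = (vD w U).map f := by
    ext i j
    simp only [vD, Matrix.of_apply, Matrix.map_apply]
    split_ifs <;> simp
  refine ⟨fun i => (Finset.sup_mono (support_map_subset _ _)).trans (hdeg i), L.map f, U.map f,
    fun i => f (b i), ?_, ?_, ?_, ?_, ?_, ?_, ?_⟩
  · rw [← Matrix.map_mul, ← h1]
    ext i j
    simp only [vJ, vz, Matrix.of_apply, Matrix.map_apply]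
    split_ifs
    · rw [coeff_map, map_mul, map_natCast]
    · rw [coeff_map]
  · rw [hvD, ← RingHom.mapMatrix_apply, ← RingHom.map_det]
    intro h
    exact h2 (f.injective (by rw [h, map_zero]))
  · intro i
    rw [Matrix.map_apply, h3, map_one]
  · intro i j hij h
    rw [Matrix.map_apply] at h
    exact h4 i j hij fun h0 => h (by rw [h0, map_zero])
  · intro i j h
    rw [Matrix.map_apply] at h
    exact h5 i j fun h0 => h (by rw [h0, map_zero])
  · funext i
    have h8 := RingHom.map_mulVec f L b i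
    rw [congrFun h6 i] at h8
    rw [vz, coeff_map]
    have h9 : (f ∘ b) = fun i => f (b i) := rfl
    rw [h9] at h8
    rw [← h8, map_mul, map_natCast, vz]
  · rw [Submodule.eq_top_iff']
    set S' : Set (Fin (m + 1) → K') := {Pi.single (Fin.last m) 1} ∪
      {v | ∃ k E : ℕ, v = (vD w (U.map f) ^ k).mulVec
        (fun i => if w i = E then f (b i) else 0)} with hS'
    have hmem : ∀ v : Fin (m + 1) → K, (fun i => f (v i)) ∈ Submodule.span K' S' := by
      intro v
      have hv : v ∈ Submodule.span K ({Pi.single (Fin.last m) 1} ∪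
        {v | ∃ k E : ℕ, v = (vD w U ^ k).mulVec (fun i => if w i = E then b i else 0)}) := by
        rw [h7]
        exact Submodule.mem_top
      induction hv using Submodule.span_induction with
      | mem v hv =>
        apply Submodule.subset_span
        rcases hv with hv | ⟨k, E, rfl⟩
        · left
          rw [Set.mem_singleton_iff] at hv
          rw [hv, Set.mem_singleton_iff]
          funext i
          by_cases hi : i = Fin.last m
          · rw [hi, Pi.single_eq_same, Pi.single_eq_same, map_one]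
          · rw [Pi.single_eq_of_ne hi, Pi.single_eq_of_ne hi, map_zero]
        · right
          refine ⟨k, E, ?_⟩
          funext i
          rw [RingHom.map_mulVec]
          have h8 : ((vD w U) ^ k).map f = (vD w (U.map f)) ^ k := by
            rw [hvD]
            exact map_pow f.mapMatrix (vD w U) k
          rw [h8]
          congr 1
          funext j
          simp only [Function.comp_apply]
          split_ifs
          · rfl
          · exact map_zero f
      | zero =>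
        simp only [Pi.zero_apply, map_zero]
        exact Submodule.zero_mem _
      | add x y _ _ hx hy =>
        have h8 : (fun i => f ((x + y) i)) = (fun i => f (x i)) + fun i => f (y i) := by
          funext i
          simp
        rw [h8]
        exact Submodule.add_mem _ hx hy
      | smul a x _ hx =>
        have h8 : (fun i => f ((a • x) i)) = f a • fun i => f (x i) := by
          funext i
          simp
        rw [h8]
        exact Submodule.smul_mem _ _ hx
    intro v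
    rw [pi_eq_sum_univ' v]
    refine Submodule.sum_mem _ fun i _ => Submodule.smul_mem _ _ ?_
    have h8 := hmem (Pi.single i 1)
    have h9 : (fun j => f ((Pi.single i 1 : Fin (m + 1) → K) j)) = Pi.single i 1 := by
      funext j
      by_cases hj : j = i
      · rw [hj, Pi.single_eq_same, Pi.single_eq_same, map_one]
      · rw [Pi.single_eq_of_ne hj, Pi.single_eq_of_ne hj, map_zero]
    rw [h9] at h8
    exact h8

/-- **Uniform bound for the number of returns**, `p`-adic version. -/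
theorem vunif (hw : ∀ i : Fin m, 1 ≤ w i.castSucc ∧ w i.castSucc < w (Fin.last m))
    (hd : 2 ≤ w (Fin.last m)) {Φ : Fin (m + 1) → MvPolynomial (Fin (m + 1)) ℚ_[p]}
    (hΦ : VPre p m w Φ) {c : VIdx m w → ZMod p} (hc : VRed Φ c) (h1 : V1 c) (h2 : V2 c)
    (hdom : VDom w Φ) (D : ℕ) :
    ∃ C : ℕ, ∀ (x : Fin (m + 1) → ℚ_[p]) (F : MvPolynomial (Fin (m + 1)) ℚ_[p]), F ≠ 0 →
      F.totalDegree ≤ D → {n | eval ((pm Φ)^[n] x) F = 0}.encard ≤ C := by
  classical
  have hp1 : (1 : ℝ) < p := by exact_mod_cast hp.out.one_lt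
  obtain ⟨N, hN⟩ := vtrap_unif hw hd hΦ hc h1 h2
  obtain ⟨e, he1, he2⟩ := exists_bound (fun i => (hw i).2) (by omega : 1 ≤ w (Fin.last m))
  have hterm : Term Φ := by
    intro F hF
    have hmap : ΦQ Φ = fun i => map ((algebraMap (RB ℚ_[p] (Fin (m + 1))) (QK ℚ_[p] m)).comp
        (C : ℚ_[p] →+* RB ℚ_[p] (Fin (m + 1)))) (Φ i) := by
      funext i
      rw [ΦQ, ΦR, MvPolynomial.map_map]
    haveI : CharZero (QK ℚ_[p] m) :=
      charZero_of_injective_ringHom ((algebraMap (RB ℚ_[p] (Fin (m + 1))) (QK ℚ_[p] m)).comp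
        (C : ℚ_[p] →+* RB ℚ_[p] (Fin (m + 1)))).injective
    refine Pool.Agent.Helper26.DV.term hw (by omega) ?_ hF
    rw [hmap]
    exact vdom_map _ hdom
  obtain ⟨C, hC⟩ := unif_count (av p) hp1 hterm D
  refine ⟨C + N, fun x F hF hFD => ?_⟩
  have horb := orb_of hd he1 (gpre_of_vpre he2 hΦ) (hN x)
  have h3 := hC _ horb F hF hFD
  set S := {n | eval ((pm Φ)^[n] x) F = 0} with hS
  set S' := {n | eval ((pm Φ)^[N + n] x) F = 0} with hS'
  have hsub : S ⊆ (fun n => N + n) '' S' ∪ (Finset.range N : Set ℕ) := by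
    intro n hn
    by_cases h : n < N
    · right
      exact_mod_cast Finset.mem_range.2 h
    · left
      refine ⟨n - N, ?_, by dsimp only; omega⟩
      rw [hS', Set.mem_setOf_eq]
      have h4 : N + (n - N) = n := by omega
      rw [h4]
      exact hn
  calc S.encard ≤ ((fun n => N + n) '' S' ∪ (Finset.range N : Set ℕ)).encard :=
        Set.encard_le_encard hsub
    _ ≤ ((fun n => N + n) '' S').encard + (Finset.range N : Set ℕ).encard :=
        Set.encard_union_le _ _
    _ ≤ (C : ℕ∞) + N := by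
        refine add_le_add ((Set.encard_image_le _ _).trans h3) ?_
        rw [Set.encard_coe_eq_coe_finsetCard, Finset.card_range]
    _ = ((C + N : ℕ) : ℕ∞) := by push_cast; rfl

end Pool.Agent.Helper87.UN
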