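import Pool.Agent.Helper87.DV.Main
import Pool.Agent.Helper87.UN.Escape

/-!
# Uniform dynamical Mordell-Lang for one hundred percent of the maps with an arbitrary degree vector
whose maximum is attained once
-/

set_option autoImplicit false

namespace Pool.Agent.Helper87.UN

open MvPolynomial
open Pool.Agent.Helper26.DV
open Pool.Agent.Helper86.MQ (pm)
open Pool.Agent.Helper87.MQ (toC toQp exists_down exists_field_emb)
open Pool.Agent.Helper87.DV (vbox v_density exists_BB vdom_of)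
open Pool.Agent.Helper87.DMLP (primesFor not_summable_primesFor prime_of_mem_primesFor)

variable {m : ℕ} {w : Fin (m + 1) → ℕ}

/-- **Main theorem.** -/
theorem un_main (hw : ∀ i : Fin m, 1 ≤ w i.castSucc)
    (hw' : ∀ i : Fin m, w i.castSucc < w (Fin.last m)) (hd : 2 ≤ w (Fin.last m))
    (A : Finset ℂ) (ε : ℝ) (hε : 0 < ε) :
    ∃ K : ℕ, ∀ B : ℕ, K ≤ B → (vbox m w B).Finite ∧
      (1 - ε) * ((vbox m w B).ncard : ℝ) ≤
        (({Φ ∈ vbox m w B | ∀ D : ℕ, ∃ C : ℕ,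
          ∀ α : Fin (m + 1) → ℂ, (∀ i, α i ∈ Subfield.closure (A : Set ℂ)) →
            ∀ F : MvPolynomial (Fin (m + 1)) ℂ, F ≠ 0 → F.totalDegree ≤ D →
              {n | eval ((pm (toC Φ))^[n] α) F = 0}.encard ≤ C}).ncard : ℝ) := by
  obtain ⟨C, hC⟩ := exists_BB hw hw' hd
  choose BB hBB hgood using hC
  obtain ⟨P, K, hP, h⟩ := v_density w C (primesFor A) (not_summable_primesFor A)
    (prime_of_mem_primesFor A) (w (Fin.last m) + 1) ε hε
  refine ⟨K, fun B hB => ?_⟩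
  obtain ⟨hfin, hcard⟩ := h BB hBB B hB
  refine ⟨hfin, hcard.trans ?_⟩
  refine Nat.cast_le.2 (Set.ncard_le_ncard ?_ (hfin.subset fun Φ hΦ => hΦ.1))
  rintro Φ ⟨hΦ, q, hq, hF, c, hc, hpre, hred⟩
  refine ⟨hΦ, fun D => ?_⟩
  obtain ⟨h1, h2, h3⟩ := hgood q c hc
  obtain ⟨_, ⟨e'⟩⟩ := exists_field_emb A q (hP q hq).1
  have hpd : w (Fin.last m) < q := (hP q hq).2.2
  have hdom : VDom w (toQp q Φ) := vdom_of hw hw' (by omega) hpd hpre hred h3
  obtain ⟨C', hC'⟩ := vunif (fun i => ⟨hw i, hw' i⟩) hd hpre hred h1 h2 hdom D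
  refine ⟨C', fun α hα F hF0 hFD => ?_⟩
  obtain ⟨G, hG0, hGD, hG⟩ := exists_down (Subfield.closure (A : Set ℂ)) F hF0
  have hG1 : MvPolynomial.map e' G ≠ 0 := fun h0 =>
    hG0 (map_injective e' e'.injective (by rw [h0, map_zero]))
  have hG2 : (MvPolynomial.map e' G).totalDegree ≤ D :=
    (Finset.sup_mono (support_map_subset _ _)).trans (hGD.trans hFD)
  refine le_trans (Set.encard_le_encard ?_) (hC' (fun i => e' ⟨α i, hα i⟩) _ hG1 hG2)
  intro n hn
  exact hG q e' Φ (fun i => ⟨α i, hα i⟩) n hn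

end Pool.Agent.Helper87.UN
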